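import Pool.Agent.H281R3.Cartan.Bridge

/-!
# A compact Kaehler manifold with a holomorphic `G/H`-geometry but no flat one

`FlatnessConjecture` (file `Pool/Agent/H281R3/Cartan/Stmt.lean`) is the assertion that for every
complex Lie group `G`, every closed complex Lie subgroup `H` and every compact connected Kaehler
manifold `M`, if `M` carries a holomorphic `G/H`-geometry then it carries a flat one. It is false.

The example: `G = ℂ ⋉ ℂ` with `(a, b) (c, d) = (a + c, b + exp(a) d)`, `H = 1`, and `M` the complex
torus `ℂ² / ℤ[i]²` with its flat Kaehler metric. A `G/1`-geometry on `M` is a holomorphic parallelism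
with values in the Lie algebra `𝔤` of `G`; the translation invariant one exists. In any
`G/1`-geometry the bundle projection is biholomorphic, the form pulled back to `ℂ²` is a bounded
holomorphic function with values in `Hom(ℂ², 𝔤)`, hence constant and closed; if the geometry is flat
then the bracket of `𝔤` vanishes, which is not the case.
-/

namespace Pool.Agent.Results.MP_ad9325_ag.FlatnessFails

open Pool.Agent.H281R3.CartanS

/-- Q1 has a negative answer. -/
theorem result : ¬ FlatnessConjecture :=
  Pool.Agent.H281R3.Cartan.not_flatnessConjectureS

end Pool.Agent.Results.MP_ad9325_ag.FlatnessFails
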